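import Mathlib
import Pool.Agent.TH8.OR.E
import Pool.Agent.T6.H45.DR.Cl3
import Pool.Agent.T6.H45.DR.Ht2

/-!
MP_0e7dfd_ag, Q1: points whose orbits are given by divide-and-conquer recursions (double and add)
of any degree. The arithmetic degree is one and the first dynamical degree is one, so the
Kawaguchi-Silverman conjecture holds for these points.
-/

set_option autoImplicit false

namespace Pool.Agent.Results.MP_0e7dfd_ag.DivideAndConquerOrbits

open MvPolynomial Filter
open Pool.Agent.H251R6.SDD
open Pool.Agent.TH8.OR (iter)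
open Pool.Agent.T6.H19.KS (IsCoord HK)

section defs

variable {k : Type} [Field k] {N : ℕ}

/-- The forms in the prime ideal `p` define the projective variety `X`; the forms `F j` of one
degree are the coordinates of a dominant rational map `f` from `X` to `X` (a form `H` vanishes on
`X` if and only if `H ∘ F` does); and `x` is an orbit of `f` which is Zariski-dense in `X` (at the
points where all `F j` vanish nothing is required of the next point). -/
structure DenseOrbit (p : Ideal (MvPolynomial (Fin (N + 1)) k))
    (F : Fin (N + 1) → MvPolynomial (Fin (N + 1)) k) (x : ℕ → Fin (N + 1) → k) : Prop where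
  prime : p.IsPrime
  forms : ∃ d, ∀ j, (F j).IsHomogeneous d
  dominant : ∀ (e : ℕ) (H : MvPolynomial (Fin (N + 1)) k), H.IsHomogeneous e →
    (aeval F H ∈ p ↔ H ∈ p)
  ne_zero : ∀ m, x m ≠ 0
  orbit : ∀ m i j, eval (x m) (F i) * x (m + 1) j = eval (x m) (F j) * x (m + 1) i
  dense : ∀ (e : ℕ) (G : MvPolynomial (Fin (N + 1)) k), G.IsHomogeneous e →
    ((∀ m, eval (x m) G = 0) ↔ G ∈ p)

/-- The sequences given by divide-and-conquer recursions with base `q`: the smallest class of
sequences in the field `k` which contains the constant sequences, is closed under eventual equality,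
sums, products and inverses of eventually nonvanishing sequences, and contains the coordinates of
all sequences of vectors with `y (q n + i) = Φ i n (y n)` for `0 ≤ i < q` and all large `n`, where
the `Φ i n` are rational maps of any degree (quotients of polynomials by a common polynomial with
a fixed set `E` of exponents) whose coefficients are sequences in the class. -/
inductive DivRec (q : ℕ) : (ℕ → k) → Prop
  | const (c : k) : DivRec q (fun _ => c)
  | congr {f g : ℕ → k} : DivRec q f → (∀ᶠ n in atTop, f n = g n) → DivRec q g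
  | add {f g : ℕ → k} : DivRec q f → DivRec q g → DivRec q (fun n => f n + g n)
  | mul {f g : ℕ → k} : DivRec q f → DivRec q g → DivRec q (fun n => f n * g n)
  | inv {f : ℕ → k} : DivRec q f → (∀ᶠ n in atTop, f n ≠ 0) → DivRec q (fun n => (f n)⁻¹)
  | recursion {r : ℕ} {E : Finset (Fin r → ℕ)} {a : Fin q → Fin r → (Fin r → ℕ) → ℕ → k}
      {b : Fin q → (Fin r → ℕ) → ℕ → k} {y : ℕ → Fin r → k} :
      (∀ i j, ∀ e ∈ E, DivRec q (a i j e)) → (∀ i, ∀ e ∈ E, DivRec q (b i e)) →
      (∀ᶠ n in atTop, ∀ i : Fin q, ∑ e ∈ E, b i e n * ∏ l, y n l ^ e l ≠ 0 ∧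
        ∀ j, y (q * n + i) j * ∑ e ∈ E, b i e n * ∏ l, y n l ^ e l =
          ∑ e ∈ E, a i j e n * ∏ l, y n l ^ e l) →
      ∀ j, DivRec q (fun n => y n j)

/-- The Hilbert function of `X`: the dimension of the forms of degree `e` modulo those vanishing on
`X`. -/
noncomputable def hilb (p : Ideal (MvPolynomial (Fin (N + 1)) k)) (e : ℕ) : ℕ :=
  Module.finrank k ((homogeneousSubmodule (Fin (N + 1)) k e).map
    (Ideal.Quotient.mkₐ k p).toLinearMap)

/-- The bigraded Hilbert function of the graph of the rational map with the coordinates `G`: the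
dimension of the forms `Q(X, Y)` of bidegree `(b, a)` modulo those vanishing on the graph, that is,
with `Q(X, G(X)) ∈ p`. -/
noncomputable def graphHilb (p : Ideal (MvPolynomial (Fin (N + 1)) k))
    (G : Fin (N + 1) → MvPolynomial (Fin (N + 1)) k) (b a : ℕ) : ℕ :=
  Module.finrank k ((weightedHomogeneousSubmodule k (biWeight (Fin (N + 1))) (b, a)).map
    ((Ideal.Quotient.mkₐ k p).comp (aeval (Sum.elim X G))).toLinearMap)

/-- The arithmetic degree of `f` at `x` is `a`: `h⁺(f ^ m (x)) ^ (1 / m)` tends to `a`, where
`h⁺ = max (1, h)` and `h` is the logarithmic Weil height relative to `K` of the `K`-rational points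
of projective space. -/
def IsArithmeticDegree (K : Type) {k ι : Type} [Field K] [NumberField K] [Field k] [Algebra K k]
    (f : PSpace k ι → PSpace k ι) (x : PSpace k ι) (a : ℝ) : Prop :=
  Tendsto (fun m : ℕ => (max 1 (Real.log (HK K (f^[m] x)))) ^ ((1 : ℝ) / m)) atTop (nhds a)

/-- The orbit of `x` under `f` is Zariski-dense in `V`. -/
def OrbitDense {ι : Type} (V : Set (PSpace k ι)) (f : PSpace k ι → PSpace k ι)
    (x : PSpace k ι) : Prop :=
  ∀ Z, IsZariskiClosed Z → (∀ n, f^[n] x ∈ Z) → V ⊆ Z

end defs

theorem DivRec.divR {k : Type} [Field k] {q : ℕ} {f : ℕ → k} (h : DivRec q f) :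
    Pool.Agent.T6.H45.DR.DivR q f := by
  induction h with
  | const c => exact .const c
  | congr _ h2 ih => exact ih.congr h2
  | add _ _ ih1 ih2 => exact ih1.add ih2
  | mul _ _ ih1 ih2 => exact ih1.mul ih2
  | inv _ h2 ih => exact ih.inv h2
  | recursion _ _ h3 j iha ihb => exact .recursion iha ihb h3 j

theorem DivRec.sum {k : Type} [Field k] {q : ℕ} {ι : Type} (s : Finset ι) {f : ι → ℕ → k}
    (h : ∀ i ∈ s, DivRec q (f i)) : DivRec q fun n => ∑ i ∈ s, f i n := by
  classical
  induction s using Finset.induction_on with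
  | empty =>
    simp only [Finset.sum_empty]
    exact .const 0
  | insert j s hj ih =>
    simp only [Finset.sum_insert hj]
    exact (h j (Finset.mem_insert_self _ _)).add
      (ih fun i hi => h i (Finset.mem_insert_of_mem hi))

/-- Polynomial recursions with constant coefficients. -/
theorem DivRec.of_poly {k : Type} [Field k] {q : ℕ} {ι : Type} [Fintype ι] {y : ℕ → ι → k}
    (Φ : Fin q → ι → MvPolynomial ι k)
    (h : ∀ᶠ n in atTop, ∀ (i : Fin q) (j : ι), y (q * n + i) j = eval (y n) (Φ i j)) (j : ι) :
    DivRec q fun n => y n j := by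
  classical
  let φ := Fintype.equivFin ι
  let z : ℕ → Fin (Fintype.card ι) → k := fun n l => y n (φ.symm l)
  let P : Fin q → Fin (Fintype.card ι) → MvPolynomial (Fin (Fintype.card ι)) k := fun i l =>
    rename φ (Φ i (φ.symm l))
  have hP : ∀ᶠ n in atTop, ∀ (i : Fin q) l, z (q * n + i) l = eval (z n) (P i l) := by
    filter_upwards [h] with n hn i l
    simp only [z, P]
    rw [hn i (φ.symm l), eval_rename]
    congr 2
    funext a
    simp
  let T : Fin q × Fin (Fintype.card ι) → Finset (Fin (Fintype.card ι) → ℕ) := fun p =>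
    Finset.image (fun s : Fin (Fintype.card ι) →₀ ℕ => (⇑s : Fin (Fintype.card ι) → ℕ))
      (P p.1 p.2).support
  let E : Finset (Fin (Fintype.card ι) → ℕ) := insert 0 (Finset.univ.biUnion T)
  have hE : ∀ (p : Fin q × Fin (Fintype.card ι)) (n : ℕ),
      ∑ e ∈ E, coeff (Finsupp.equivFunOnFinite.symm e) (P p.1 p.2) * ∏ l, z n l ^ e l =
        eval (z n) (P p.1 p.2) := by
    intro p n
    rw [eval_eq']
    have h1 : T p ⊆ E :=
      (Finset.subset_biUnion_of_mem T (Finset.mem_univ p)).trans (Finset.subset_insert _ _)
    rw [← Finset.sum_subset h1, Finset.sum_image]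
    · refine Finset.sum_congr rfl fun s _ => ?_
      congr 2
      ext l
      rfl
    · intro s _ s' _ hs
      exact DFunLike.coe_injective hs
    · intro e _ he
      have h2 : coeff (Finsupp.equivFunOnFinite.symm e) (P p.1 p.2) = 0 := by
        by_contra h3
        apply he
        refine Finset.mem_image.2 ⟨Finsupp.equivFunOnFinite.symm e, mem_support_iff.2 h3, ?_⟩
        rfl
      rw [h2, zero_mul]
  have h1 : ∀ l, DivRec q fun n => z n l := by
    refine DivRec.recursion (E := E)
      (a := fun i j e _ => coeff (Finsupp.equivFunOnFinite.symm e) (P i j))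
      (b := fun _ e _ => if e = 0 then 1 else 0) (y := z) (fun _ _ _ _ => .const _)
      (fun _ _ _ => .const _) ?_
    filter_upwards [hP] with n hn i
    have h2 : ∑ e ∈ E, (if e = 0 then (1 : k) else 0) * ∏ l, z n l ^ e l = 1 := by
      rw [Finset.sum_eq_single 0]
      · simp
      · intro e _ he
        rw [if_neg he, zero_mul]
      · intro h; exact absurd (Finset.mem_insert_self _ _) h
    refine ⟨by rw [h2]; exact one_ne_zero, fun j => ?_⟩
    rw [h2, mul_one, hn i j]
    exact (hE (i, j) n).symm
  have h2 := h1 (φ j)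
  simp only [z, Equiv.symm_apply_apply] at h2
  exact h2

/-- Solutions of linear recurrences with constant coefficients. -/
theorem DivRec.linear {k : Type} [Field k] {q r : ℕ} (M : Matrix (Fin r) (Fin r) k)
    (v : Fin r → k) (j : Fin r) : DivRec q fun n => (M ^ n).mulVec v j := by
  classical
  have h1 : ∀ p : Fin r × Fin r, DivRec q fun n => (M ^ n) p.1 p.2 := by
    refine DivRec.of_poly (y := fun n (p : Fin r × Fin r) => (M ^ n) p.1 p.2)
      (fun i p => (Matrix.mvPolynomialX (Fin r) (Fin r) k ^ q * (M ^ (i : ℕ)).map C :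
        Matrix (Fin r) (Fin r) (MvPolynomial (Fin r × Fin r) k)) p.1 p.2)
      (Eventually.of_forall fun n i p => ?_)
    have h2 : (eval fun p : Fin r × Fin r => (M ^ n) p.1 p.2).mapMatrix
        (Matrix.mvPolynomialX (Fin r) (Fin r) k ^ q * (M ^ (i : ℕ)).map C) =
        M ^ (q * n + i) := by
      rw [map_mul, map_pow, Matrix.mvPolynomialX_mapMatrix_eval, pow_add, mul_comm q n, pow_mul]
      congr 1
      ext a b
      simp
    have h3 := congrFun (congrFun h2 p.1) p.2
    rw [← h3]
    rfl
  exact DivRec.sum Finset.univ fun l _ => (h1 (j, l)).mul (.const (v l))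

/-- Let `q ≥ 2`.

(1) Let `X` be a projective variety over a field `k` whose Hilbert function is bounded by
`A (e + 1) ^ t` (for example `t = dim X`), `f` a dominant rational map from `X` to `X`, and
`x 0, x 1, …` an orbit of `f` in `X(k)` which is Zariski-dense in `X` and whose points have
homogeneous coordinates given by divide-and-conquer recursions with base `q`. Then there are `C` and
`κ` such that for all `n` the Hilbert function of the graph of `f ^ n` is bounded by
`C (n + 1) ^ κ (a + b + 1) ^ t` for all bidegrees `(b, a)`. (So the degrees of the graphs grow at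
most polynomially in `n` and all dynamical degrees of `f` are one.)

(2) Let `V` be a projective variety, `f` a surjective endomorphism of `V`, both defined over a field
`K`, and `x0` a point of `V` with coordinates in an algebraically closed field `k ⊇ K` whose orbit
is Zariski-dense in `V`. If the points `f ^ m (x0)` have homogeneous coordinates in `k` given by
divide-and-conquer recursions with base `q`, then the first dynamical degree of `f` is at most one.

(3) If `K` is a number field and the points `f ^ m (x0)` have homogeneous coordinates in `K` given by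
divide-and-conquer recursions with base `q`, then moreover the arithmetic degree of `f` at `x0` is
one.

(4) All solutions of linear recurrences with constant coefficients are given by divide-and-conquer
recursions with base `q`. -/
theorem result (q : ℕ) (hq : 2 ≤ q) :
    (∀ (k : Type) [Field k] (N : ℕ) (p : Ideal (MvPolynomial (Fin (N + 1)) k))
      (F : Fin (N + 1) → MvPolynomial (Fin (N + 1)) k) (x : ℕ → Fin (N + 1) → k),
      DenseOrbit p F x → (∀ j, DivRec q fun m => x m j) →
      ∀ t A : ℕ, (∀ e, hilb p e ≤ A * (e + 1) ^ t) →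
        ∃ C κ : ℕ, ∀ n b a, graphHilb p (iter F n) b a ≤ C * (n + 1) ^ κ * (a + b + 1) ^ t) ∧
    (∀ (K k : Type) [Field K] [Field k] [Algebra K k] [IsAlgClosed k] (N : ℕ)
      (V : Set (PSpace k (Fin (N + 1)))) (f : PSpace k (Fin (N + 1)) → PSpace k (Fin (N + 1)))
      (x0 : PSpace k (Fin (N + 1))) (w : ℕ → Fin (N + 1) → k),
      IsVarietyOver K V → IsSurjectiveEndomorphism K V f → x0 ∈ V → OrbitDense V f x0 →
      (∀ m, ∃ h : w m ≠ 0, f^[m] x0 = Projectivization.mk k (w m) h) →
      (∀ j, DivRec q fun m => w m j) → ∀ δ : ℝ, IsFirstDynamicalDegree V f δ → δ ≤ 1) ∧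
    (∀ (K k : Type) [Field K] [NumberField K] [Field k] [Algebra K k] [IsAlgClosed k] (N : ℕ)
      (V : Set (PSpace k (Fin (N + 1)))) (f : PSpace k (Fin (N + 1)) → PSpace k (Fin (N + 1)))
      (x0 : PSpace k (Fin (N + 1))) (w : ℕ → Fin (N + 1) → K),
      IsVarietyOver K V → IsSurjectiveEndomorphism K V f → x0 ∈ V → OrbitDense V f x0 →
      (∀ m, IsCoord (f^[m] x0) (w m)) → (∀ j, DivRec q fun m => w m j) →
      IsArithmeticDegree K f x0 1 ∧ ∀ δ : ℝ, IsFirstDynamicalDegree V f δ → δ ≤ 1) ∧
    (∀ (k : Type) [Field k] (r : ℕ) (M : Matrix (Fin r) (Fin r) k) (v : Fin r → k) (j : Fin r),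
      DivRec q fun n => (M ^ n).mulVec v j) := by
  refine ⟨?_, ?_, ?_, fun k _ r M v j => DivRec.linear M v j⟩
  · intro k _ N p F x h hr t A hA
    obtain ⟨d, hF⟩ := h.forms
    have horb := fun n m i j => Pool.Agent.TH8.OR.orb hF h.ne_zero h.orbit n m i j
    have hdomn : ∀ n (c : ℕ) (H : MvPolynomial (Fin (N + 1)) k), H.IsHomogeneous c → H ∉ p →
        aeval (iter F n) H ∉ p := by
      intro n
      induction n with
      | zero =>
        intro c H _ hHp
        simpa [iter] using hHp
      | succ n ih =>
        intro c H hH hHp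
        have h1 : aeval (iter F (n + 1)) H = aeval F (aeval (iter F n) H) := by
          rw [← AlgHom.comp_apply, comp_aeval]
          rfl
        rw [h1]
        intro hcon
        exact ih c H hH hHp ((h.dominant _ _
          (hH.aeval (iter F n) (Pool.Agent.TH8.OR.iter_hom hF n))).1 hcon)
    obtain ⟨C, κ, hC⟩ := Pool.Agent.T6.H45.DR.graph_bound hq h.prime h.ne_zero h.dense
      (fun n => ⟨d ^ n, iter F n, Pool.Agent.TH8.OR.iter_hom hF n, hdomn n, horb n⟩)
      (Pool.Agent.T6.H45.DR.fam _ fun j => ((hr j).divR).gr hq) hA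
    refine ⟨C, κ, fun n b a => hC n (d ^ n) (iter F n) (Pool.Agent.TH8.OR.iter_hom hF n) ?_
      (horb n) b a⟩
    obtain ⟨j0, hj0⟩ := Pool.Agent.TH8.OR.exists_X h.ne_zero h.dense
    refine ⟨j0, fun hcon => hdomn n 1 (X j0) (isHomogeneous_X k j0) hj0 ?_⟩
    rw [aeval_X]
    exact hcon
  · intro K k _ _ _ _ N V f x0 w hV hf hx hd hw hr δ hδ
    have : Infinite k := IsAlgClosed.instInfinite
    exact Pool.Agent.T6.H45.DR.final hV hf hx hd hw hq (fun j => (hr j).divR) hδ
  · intro K k _ _ _ _ _ N V f x0 w hV hf hx hd hw hr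
    have : Infinite k := IsAlgClosed.instInfinite
    refine ⟨Pool.Agent.T6.H45.DR.arith_one hw hq fun j => (hr j).divR, fun δ hδ => ?_⟩
    exact Pool.Agent.T6.H45.DR.final (w := fun m j => algebraMap K k (w m j)) hV hf hx hd
      (fun m => hw m) hq (fun j => ((hr j).divR).map (algebraMap K k)) hδ

end Pool.Agent.Results.MP_0e7dfd_ag.DivideAndConquerOrbits
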