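import Mathlib
import Pool.Agent.T6.H45.NT.I

/-!
MP_0e7dfd_ag, Q1: the dynamical degree of a dominant rational self-map with a Zariski-dense orbit
which agrees with nested recursions of degree at most `δ` only at some times: at a set of times with
bounded gaps, or piecewise syndetic, or recurrent along the orbit. For `δ = 1` the dynamical degree is
one, so the Kawaguchi-Silverman conjecture holds for all points with such orbits.
-/

set_option autoImplicit false

namespace Pool.Agent.Results.MP_0e7dfd_ag.NestedAtSomeTimes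

open MvPolynomial Filter
open Pool.Agent.H251R6.SDD
open Pool.Agent.TH8.OR (iter GivenBy Invertible)

variable {k : Type} [Field k] {N : ℕ}

/-- The forms in the prime ideal `p` define the projective variety `X`; the forms `F j` of one
degree are the coordinates of a dominant rational map `f` from `X` to `X` (a form `H` vanishes on
`X` if and only if `H ∘ F` does); and `x` is an orbit of `f` which is Zariski-dense in `X` (at the
points where all `F j` vanish nothing is required of the next point). -/
structure DenseOrbit (p : Ideal (MvPolynomial (Fin (N + 1)) k))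
    (F : Fin (N + 1) → MvPolynomial (Fin (N + 1)) k) (x : ℕ → Fin (N + 1) → k) : Prop where
  prime : p.IsPrime
  forms : ∃ d, ∀ j, (F j).IsHomogeneous d
  dominant : ∀ (e : ℕ) (H : MvPolynomial (Fin (N + 1)) k), H.IsHomogeneous e →
    (aeval F H ∈ p ↔ H ∈ p)
  ne_zero : ∀ m, x m ≠ 0
  orbit : ∀ m i j, eval (x m) (F i) * x (m + 1) j = eval (x m) (F j) * x (m + 1) i
  dense : ∀ (e : ℕ) (G : MvPolynomial (Fin (N + 1)) k), G.IsHomogeneous e →
    ((∀ m, eval (x m) G = 0) ↔ G ∈ p)

/-- The sequences given by nested recursions of degree at most `δ`: the smallest class of sequences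
in the field `k` which contains the constant sequences, is closed under eventual equality, sums,
products and inverses of eventually nonvanishing sequences, and contains the coordinates of all
sequences of vectors with `y (n + 1) = Φ n (y n)` for all large `n`, where `Φ n` are rational maps
of degree at most `δ` (quotients of polynomials of degree at most `δ` by a common polynomial of
degree at most `δ`) whose coefficients are sequences in the class. -/
inductive Nested (δ : ℕ) : (ℕ → k) → Prop
  | const (c : k) : Nested δ (fun _ => c)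
  | congr {f g : ℕ → k} : Nested δ f → (∀ᶠ n in atTop, f n = g n) → Nested δ g
  | add {f g : ℕ → k} : Nested δ f → Nested δ g → Nested δ (fun n => f n + g n)
  | mul {f g : ℕ → k} : Nested δ f → Nested δ g → Nested δ (fun n => f n * g n)
  | inv {f : ℕ → k} : Nested δ f → (∀ᶠ n in atTop, f n ≠ 0) → Nested δ (fun n => (f n)⁻¹)
  | recursion {r : ℕ} {E : Finset (Fin r → ℕ)} {a : Fin r → (Fin r → ℕ) → ℕ → k}
      {b : (Fin r → ℕ) → ℕ → k} {y : ℕ → Fin r → k} :
      (∀ e ∈ E, ∑ l, e l ≤ δ) → (∀ i, ∀ e ∈ E, Nested δ (a i e)) → (∀ e ∈ E, Nested δ (b e)) →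
      (∀ᶠ n in atTop, ∑ e ∈ E, b e n * ∏ l, y n l ^ e l ≠ 0 ∧
        ∀ i, y (n + 1) i * ∑ e ∈ E, b e n * ∏ l, y n l ^ e l =
          ∑ e ∈ E, a i e n * ∏ l, y n l ^ e l) →
      ∀ i, Nested δ (fun n => y n i)

/-- The set of times `T` has bounded gaps. -/
def BoundedGaps (T : Set ℕ) : Prop := ∃ L, ∀ m, ∃ i ≤ L, m + i ∈ T

/-- The set of times `T` is piecewise syndetic: for some `L` there are arbitrarily long intervals in
which the gaps of `T` are at most `L`. (For example `T` contains arbitrarily long intervals; the density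
of `T` may be zero.) -/
def PiecewiseSyndetic (T : Set ℕ) : Prop := ∃ L, ∀ r, ∃ a, ∀ s ≤ r, ∃ i ≤ L, a + s + i ∈ T

/-- The map is defined at all points of the orbit `x`: for every `m` there are forms `H j` of one
degree which give the map along the orbit and do not all vanish at `x m`. -/
def DefinedAlong (x : ℕ → Fin (N + 1) → k) : Prop :=
  ∀ m, ∃ (c : ℕ) (H : Fin (N + 1) → MvPolynomial (Fin (N + 1)) k), (∀ j, (H j).IsHomogeneous c) ∧
    (∀ l i j, eval (x l) (H i) * x (l + 1) j = eval (x l) (H j) * x (l + 1) i) ∧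
    ∃ j, eval (x m) (H j) ≠ 0

/-- The set of times `T` is recurrent for the orbit `x` along the set `B` of return times: for every
finite subset `E` of `B` and all `m0` the points `x m` with `m ≥ m0` and `m + n ∈ T` for all `n ∈ E` are
Zariski-dense in the variety of `p`. -/
def Recurrent (p : Ideal (MvPolynomial (Fin (N + 1)) k)) (x : ℕ → Fin (N + 1) → k) (T B : Set ℕ) :
    Prop :=
  ∀ E : Finset ℕ, (E : Set ℕ) ⊆ B → ∀ (m0 e : ℕ) (G : MvPolynomial (Fin (N + 1)) k),
    G.IsHomogeneous e → G ∉ p → ∃ m ≥ m0, (∀ n ∈ E, m + n ∈ T) ∧ eval (x m) G ≠ 0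

/-- The orbit of `x` under `f` is Zariski-dense in `V`. -/
def OrbitDense {ι : Type} (V : Set (PSpace k ι)) (f : PSpace k ι → PSpace k ι)
    (x : PSpace k ι) : Prop :=
  ∀ Z, IsZariskiClosed Z → (∀ n, f^[n] x ∈ Z) → V ⊆ Z

theorem nested_nest {δ : ℕ} {f : ℕ → k} (h : Nested δ f) : Pool.Agent.T6.H45.KN.Nest δ f := by
  induction h with
  | const c => exact .const c
  | congr _ h2 ih => exact ih.congr h2
  | add _ _ ih1 ih2 => exact ih1.add ih2
  | mul _ _ ih1 ih2 => exact ih1.mul ih2
  | inv _ h2 ih => exact ih.inv h2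
  | recursion h1 _ _ h4 i iha ihb => exact .orbit h1 iha ihb h4 i

/-- Let `T` be a set of times and `w` a sequence of vectors whose coordinates are nested of degree at
most `δ ≥ 1`.

(A) Let `V` be a projective variety, `f` a surjective endomorphism of `V`, both defined over a field `K`,
and `x0` a point of `V` with coordinates in an algebraically closed field `k ⊇ K` whose orbit is
Zariski-dense in `V`. If `T` is piecewise syndetic and `w m` are homogeneous coordinates of `f ^ m (x0)`
for all `m ∈ T` (nothing is required for `m ∉ T`), then the first dynamical degree of `f` is at most `δ`.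

(B) Let `X` be a projective variety over a field `k`, let `f` be a dominant rational map from `X` to
`X`, and let `x 0, x 1, …` be an orbit of `f` in `X(k)` which is Zariski-dense in `X`, with
homogeneous coordinates such that `x m = w m` for all `m ∈ T`.

(B1) If `T` has bounded gaps, or if `T` is piecewise syndetic and `f` is defined at all points of the
orbit, then there are `C` and `κ` such that for all `n` the iterate `f ^ n` is given by forms of degree at
most `C (n + 1) ^ κ δ ^ n`. (So the first dynamical degree of `f` is at most `δ`.)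

(B2) If moreover `δ = 1`, then `f` is birational, and the degrees of the iterates grow at most
polynomially. (So the first dynamical degree is one.)

(B3) If `T` is recurrent along a set `B` of return times containing `0`, then there are `C` and `κ` such
that for all `n ∈ B` the iterate `f ^ n` is given by forms of degree at most `C (n + 1) ^ κ δ ^ n`. (So if
`B` is infinite the first dynamical degree of `f` is at most `δ`.) -/
theorem result :
    (∀ (K k : Type) [Field K] [Field k] [Algebra K k] [IsAlgClosed k] (N : ℕ)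
      (V : Set (PSpace k (Fin (N + 1)))) (f : PSpace k (Fin (N + 1)) → PSpace k (Fin (N + 1)))
      (x0 : PSpace k (Fin (N + 1))) (T : Set ℕ) (w : ℕ → Fin (N + 1) → k) (δ : ℕ),
      IsVarietyOver K V → IsSurjectiveEndomorphism K V f → x0 ∈ V → OrbitDense V f x0 →
      PiecewiseSyndetic T → (∀ m ∈ T, ∃ h : w m ≠ 0, f^[m] x0 = Projectivization.mk k (w m) h) →
      1 ≤ δ → (∀ j, Nested δ fun m => w m j) →
      ∀ D : ℝ, IsFirstDynamicalDegree V f D → D ≤ δ) ∧
    (∀ (k : Type) [Field k] (N : ℕ) (p : Ideal (MvPolynomial (Fin (N + 1)) k))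
      (F : Fin (N + 1) → MvPolynomial (Fin (N + 1)) k) (x : ℕ → Fin (N + 1) → k),
      DenseOrbit p F x → ∀ (T : Set ℕ) (w : ℕ → Fin (N + 1) → k), (∀ m ∈ T, x m = w m) →
      (∀ δ : ℕ, 1 ≤ δ → (∀ j, Nested δ fun m => w m j) →
        (BoundedGaps T ∨ PiecewiseSyndetic T ∧ DefinedAlong x) →
        ∃ C κ : ℕ, ∀ n, ∃ e ≤ C * (n + 1) ^ κ * δ ^ n, GivenBy p F n e) ∧
      ((∀ j, Nested 1 fun m => w m j) →
        (BoundedGaps T ∨ PiecewiseSyndetic T ∧ DefinedAlong x) →
        Invertible p F ∧ ∃ C κ : ℕ, ∀ n, ∃ e ≤ C * (n + 1) ^ κ, GivenBy p F n e) ∧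
      (∀ δ : ℕ, 1 ≤ δ → (∀ j, Nested δ fun m => w m j) → ∀ B : Set ℕ, 0 ∈ B → Recurrent p x T B →
        ∃ C κ : ℕ, ∀ n ∈ B, ∃ e ≤ C * (n + 1) ^ κ * δ ^ n, GivenBy p F n e)) := by
  refine ⟨?_, ?_⟩
  · intro K k _ _ _ _ N V f x0 T w δ hV hf hx hd hT hw hδ hn D hD
    have : Infinite k := IsAlgClosed.instInfinite
    obtain ⟨L, hL⟩ := hT
    exact Pool.Agent.T6.H45.NT.endo2 hV hf hx hd hL hw hδ (fun j => nested_nest (hn j)) hD
  · intro k _ N p F x h T w hw
    obtain ⟨d, hF⟩ := h.forms
    have h1 : ∀ δ : ℕ, 1 ≤ δ → (∀ j, Nested δ fun m => w m j) →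
        (BoundedGaps T ∨ PiecewiseSyndetic T ∧ DefinedAlong x) →
        ∃ C κ : ℕ, ∀ n, ∃ e ≤ C * (n + 1) ^ κ * δ ^ n, GivenBy p F n e := by
      rintro δ hδ hn (⟨L, hL⟩ | ⟨⟨L, hL⟩, hdef⟩)
      · exact Pool.Agent.T6.H45.NT.gaps h.prime hF h.dominant h.ne_zero h.orbit h.dense hδ hL hw
          fun j => nested_nest (hn j)
      · exact Pool.Agent.T6.H45.NT.pw1 h.prime hF h.dominant h.ne_zero h.orbit
          (Pool.Agent.T6.H45.NT.rep_iter h.ne_zero fun m => by
            obtain ⟨c, H, h1, h2, h3⟩ := hdef m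
            exact ⟨c, H, ⟨h1, h2⟩, h3⟩)
          h.dense hδ hL hw fun j => nested_nest (hn j)
    refine ⟨h1, fun hn hT => ?_, fun δ hδ hn B h0 hB => ?_⟩
    · obtain ⟨C, κ, hC⟩ := h1 1 le_rfl hn hT
      simp only [one_pow, mul_one] at hC
      obtain ⟨j0, hj0⟩ := Pool.Agent.TH8.OR.exists_X h.ne_zero h.dense
      exact ⟨Pool.Agent.T6.H45.KN.invertible_of_growthP h.prime hF h.dominant hj0 hC, C, κ, hC⟩
    · exact Pool.Agent.T6.H45.NT.recurrent h.prime hF h.dominant h.ne_zero h.orbit h.dense hδ h0 hB hw
        fun j => nested_nest (hn j)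

end Pool.Agent.Results.MP_0e7dfd_ag.NestedAtSomeTimes
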