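import Mathlib
import Pool.Agent.T6.H45.KN.Mn
import Pool.Agent.T6.H45.KN.Gw
import Pool.Agent.T6.H45.KN.Un

/-!
MP_0e7dfd_ag, Q1: the dynamical degree of a dominant rational self-map with a Zariski-dense orbit
which is produced by nested recursions of degree at most `δ`. For `δ = 1` the dynamical degree is
one, so the Kawaguchi-Silverman conjecture holds for all points with such orbits.
-/

set_option autoImplicit false

namespace Pool.Agent.Results.MP_0e7dfd_ag.NestedOrbits

open MvPolynomial Filter
open Pool.Agent.TH8.OR (iter GivenBy Invertible)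

variable {k : Type} [Field k] {N : ℕ}

/-- The forms in the prime ideal `p` define the projective variety `X`; the forms `F j` of one
degree are the coordinates of a dominant rational map `f` from `X` to `X` (a form `H` vanishes on
`X` if and only if `H ∘ F` does); and `x` is an orbit of `f` which is Zariski-dense in `X` (at the
points where all `F j` vanish nothing is required of the next point). -/
structure DenseOrbit (p : Ideal (MvPolynomial (Fin (N + 1)) k))
    (F : Fin (N + 1) → MvPolynomial (Fin (N + 1)) k) (x : ℕ → Fin (N + 1) → k) : Prop where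
  prime : p.IsPrime
  forms : ∃ d, ∀ j, (F j).IsHomogeneous d
  dominant : ∀ (e : ℕ) (H : MvPolynomial (Fin (N + 1)) k), H.IsHomogeneous e →
    (aeval F H ∈ p ↔ H ∈ p)
  ne_zero : ∀ m, x m ≠ 0
  orbit : ∀ m i j, eval (x m) (F i) * x (m + 1) j = eval (x m) (F j) * x (m + 1) i
  dense : ∀ (e : ℕ) (G : MvPolynomial (Fin (N + 1)) k), G.IsHomogeneous e →
    ((∀ m, eval (x m) G = 0) ↔ G ∈ p)

/-- The sequences given by nested recursions of degree at most `δ`: the smallest class of sequences
in the field `k` which contains the constant sequences, is closed under eventual equality, sums,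
products and inverses of eventually nonvanishing sequences, and contains the coordinates of all
sequences of vectors with `y (n + 1) = Φ n (y n)` for all large `n`, where `Φ n` are rational maps
of degree at most `δ` (quotients of polynomials of degree at most `δ` by a common polynomial of
degree at most `δ`) whose coefficients are sequences in the class. -/
inductive Nested (δ : ℕ) : (ℕ → k) → Prop
  | const (c : k) : Nested δ (fun _ => c)
  | congr {f g : ℕ → k} : Nested δ f → (∀ᶠ n in atTop, f n = g n) → Nested δ g
  | add {f g : ℕ → k} : Nested δ f → Nested δ g → Nested δ (fun n => f n + g n)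
  | mul {f g : ℕ → k} : Nested δ f → Nested δ g → Nested δ (fun n => f n * g n)
  | inv {f : ℕ → k} : Nested δ f → (∀ᶠ n in atTop, f n ≠ 0) → Nested δ (fun n => (f n)⁻¹)
  | recursion {r : ℕ} {E : Finset (Fin r → ℕ)} {a : Fin r → (Fin r → ℕ) → ℕ → k}
      {b : (Fin r → ℕ) → ℕ → k} {y : ℕ → Fin r → k} :
      (∀ e ∈ E, ∑ l, e l ≤ δ) → (∀ i, ∀ e ∈ E, Nested δ (a i e)) → (∀ e ∈ E, Nested δ (b e)) →
      (∀ᶠ n in atTop, ∑ e ∈ E, b e n * ∏ l, y n l ^ e l ≠ 0 ∧
        ∀ i, y (n + 1) i * ∑ e ∈ E, b e n * ∏ l, y n l ^ e l =
          ∑ e ∈ E, a i e n * ∏ l, y n l ^ e l) →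
      ∀ i, Nested δ (fun n => y n i)

/-- The linearly nested sequences: the same class, but with linear recursions `y (n + 1) = A n (y n)`
by square matrices `A n` with entries in the class and nonzero determinants for large `n`. -/
inductive LinNested : (ℕ → k) → Prop
  | const (c : k) : LinNested (fun _ => c)
  | congr {f g : ℕ → k} : LinNested f → (∀ᶠ n in atTop, f n = g n) → LinNested g
  | add {f g : ℕ → k} : LinNested f → LinNested g → LinNested (fun n => f n + g n)
  | mul {f g : ℕ → k} : LinNested f → LinNested g → LinNested (fun n => f n * g n)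
  | inv {f : ℕ → k} : LinNested f → (∀ᶠ n in atTop, f n ≠ 0) → LinNested (fun n => (f n)⁻¹)
  | solve {r : ℕ} {A : ℕ → Matrix (Fin r) (Fin r) k} {y : ℕ → Fin r → k} :
      (∀ i j, LinNested (fun n => A n i j)) → (∀ᶠ n in atTop, (A n).det ≠ 0) →
      (∀ᶠ n in atTop, y (n + 1) = (A n).mulVec (y n)) → ∀ i, LinNested (fun n => y n i)

/-- The rational curves over `ℂ` in the variety `X` are Zariski-dense in `X`, where `k` is embedded in
`ℂ` by `τ` (this is weaker than uniruled): every form over `k` which does not vanish on `X` does not vanish on some nonconstant rational curve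
in `X`. -/
def RationalCurvesDense (τ : k →+* ℂ) (p : Ideal (MvPolynomial (Fin (N + 1)) k)) : Prop :=
  ∀ (e : ℕ) (G : MvPolynomial (Fin (N + 1)) k), G.IsHomogeneous e → G ∉ p →
    ∃ c : Fin (N + 1) → Polynomial ℂ,
      (∀ H ∈ p, (∃ d, H.IsHomogeneous d) → ∀ u, eval₂ τ (fun j => (c j).eval u) H = 0) ∧
      (∃ i j u v, (c i).eval u * (c j).eval v ≠ (c j).eval u * (c i).eval v) ∧
      ∃ u, eval₂ τ (fun j => (c j).eval u) G ≠ 0

theorem nested_nest {δ : ℕ} {f : ℕ → k} (h : Nested δ f) : Pool.Agent.T6.H45.KN.Nest δ f := by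
  induction h with
  | const c => exact .const c
  | congr _ h2 ih => exact ih.congr h2
  | add _ _ ih1 ih2 => exact ih1.add ih2
  | mul _ _ ih1 ih2 => exact ih1.mul ih2
  | inv _ h2 ih => exact ih.inv h2
  | recursion h1 _ _ h4 i iha ihb => exact .orbit h1 iha ihb h4 i

theorem lin_hol {f : ℕ → k} (h : LinNested f) : Pool.Agent.T6.H45.Hol.Nested k f := by
  induction h with
  | const c => exact .const c
  | congr _ h2 ih => exact ih.congr h2
  | add _ _ ih1 ih2 => exact ih1.add ih2
  | mul _ _ ih1 ih2 => exact ih1.mul ih2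
  | inv _ h2 ih => exact ih.inv h2
  | solve _ h2 h3 i ih => exact .solve ih h2 h3 i

/-- Linearly nested sequences are nested of degree one. -/
theorem LinNested.nested {δ : ℕ} (hδ : 1 ≤ δ) {f : ℕ → k} (h : LinNested f) : Nested δ f := by
  classical
  induction h with
  | const c => exact .const c
  | congr _ h2 ih => exact ih.congr h2
  | add _ _ ih1 ih2 => exact ih1.add ih2
  | mul _ _ ih1 ih2 => exact ih1.mul ih2
  | inv _ h2 ih => exact ih.inv h2
  | @solve r A y _ _ h3 i ih =>
    let E : Finset (Fin r → ℕ) := insert 0 (Finset.univ.image fun j : Fin r => Pi.single j 1)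
    have hE : ∀ e : Fin r → ℕ, e ∈ E ↔ e = 0 ∨ ∃ j, Pi.single j 1 = e := by
      intro e
      simp only [E, Finset.mem_insert, Finset.mem_image, Finset.mem_univ, true_and]
    let a : Fin r → (Fin r → ℕ) → ℕ → k := fun i e n =>
      ∑ j, if e = Pi.single j 1 then A n i j else 0
    let b : (Fin r → ℕ) → ℕ → k := fun e _ => if e = 0 then 1 else 0
    have hs : ∀ (s : Finset (Fin r)) (g : Fin r → ℕ → k), (∀ j, Nested δ (g j)) →
        Nested δ fun n => ∑ j ∈ s, g j n := by
      intro s g hg
      induction s using Finset.induction_on with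
      | empty =>
        simp only [Finset.sum_empty]
        exact .const 0
      | insert j s hj ih2 =>
        simp only [Finset.sum_insert hj]
        exact (hg j).add ih2
    have hinj : ∀ j l : Fin r, (Pi.single j 1 : Fin r → ℕ) = Pi.single l 1 ↔ j = l := by
      intro j l
      constructor
      · intro h
        by_contra hne
        have h1 := congrFun h j
        rw [Pi.single_eq_same, Pi.single_eq_of_ne hne] at h1
        exact one_ne_zero h1
      · rintro rfl; rfl
    have hne0 : ∀ j : Fin r, (Pi.single j 1 : Fin r → ℕ) ≠ 0 := by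
      intro j h
      have h1 := congrFun h j
      rw [Pi.single_eq_same] at h1
      exact one_ne_zero h1
    have hprod : ∀ (j : Fin r) (w : Fin r → k), ∏ l, w l ^ (Pi.single j 1 : Fin r → ℕ) l = w j := by
      intro j w
      rw [Finset.prod_eq_single j]
      · rw [Pi.single_eq_same, pow_one]
      · intro l _ hl
        rw [Pi.single_eq_of_ne hl, pow_zero]
      · intro h; exact absurd (Finset.mem_univ _) h
    have hsumE : ∀ g : (Fin r → ℕ) → k, ∑ e ∈ E, g e = g 0 + ∑ j : Fin r, g (Pi.single j 1) := by
      intro g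
      rw [Finset.sum_insert, Finset.sum_image]
      · intro j _ l _ h
        exact (hinj j l).1 h
      · simp only [Finset.mem_image, Finset.mem_univ, true_and, not_exists]
        exact hne0
    have hb1 : ∀ (n : ℕ) (w : Fin r → k), ∑ e ∈ E, b e n * ∏ l, w l ^ e l = 1 := by
      intro n w
      rw [hsumE]
      simp [b, hne0]
    have ha1 : ∀ (i : Fin r) (n : ℕ) (w : Fin r → k),
        ∑ e ∈ E, a i e n * ∏ l, w l ^ e l = ∑ j, A n i j * w j := by
      intro i n w
      rw [hsumE]
      have e0 : a i 0 n = 0 := Finset.sum_eq_zero fun j _ => if_neg fun h => hne0 j h.symm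
      rw [e0, zero_mul, zero_add]
      refine Finset.sum_congr rfl fun j _ => ?_
      rw [hprod]
      congr 1
      rw [show a i (Pi.single j 1) n = ∑ l, if (Pi.single j 1 : Fin r → ℕ) = Pi.single l 1
        then A n i l else 0 from rfl, Finset.sum_eq_single j]
      · rw [if_pos rfl]
      · intro l _ hl
        exact if_neg fun h => hl ((hinj j l).1 h).symm
      · intro h; exact absurd (Finset.mem_univ _) h
    refine Nested.recursion (E := E) (a := a) (b := b) (y := y) ?_ ?_ ?_ ?_ i
    · intro e he
      rcases (hE e).1 he with rfl | ⟨j, rfl⟩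
      · simp
      · rw [Finset.sum_pi_single']
        simpa using hδ
    · intro i e _
      refine hs Finset.univ (fun j n => if e = Pi.single j 1 then A n i j else 0) fun j => ?_
      by_cases h : e = Pi.single j 1
      · simp only [if_pos h]
        exact ih i j
      · simp only [if_neg h]
        exact .const 0
    · intro e _
      exact .const _
    · filter_upwards [h3] with n hn
      refine ⟨by rw [hb1 n (y n)]; exact one_ne_zero, fun i => ?_⟩
      rw [hb1 n (y n), ha1 i n (y n), mul_one, hn]
      rfl

/-- Let `X` be a projective variety over a field `k`, let `f` be a dominant rational map from `X` to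
`X`, and let `x 0, x 1, …` be an orbit of `f` in `X(k)` which is Zariski-dense in `X`.

(1) If the points `x m` have homogeneous coordinates which are nested of degree at most `δ ≥ 1`,
then there are `C` and `κ` such that for all `n` the iterate `f ^ n` is given by forms of degree at
most `C (n + 1) ^ κ δ ^ n`. (So the first dynamical degree of `f` is at most `δ`.)

(2) If they are nested of degree one, then `f` is birational, and the degrees of the iterates grow at
most polynomially. (So the first dynamical degree is one.)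

(3) If they are linearly nested, `X` is not a point and `k` is embedded in `ℂ`, then moreover the
rational curves over `ℂ` in `X` are Zariski-dense in `X`. Linearly nested sequences are nested of degree one. -/
theorem result (k : Type) [Field k] {N : ℕ}
    (p : Ideal (MvPolynomial (Fin (N + 1)) k)) (F : Fin (N + 1) → MvPolynomial (Fin (N + 1)) k)
    (x : ℕ → Fin (N + 1) → k) (h : DenseOrbit p F x) :
    (∀ δ : ℕ, 1 ≤ δ → (∀ j, Nested δ fun m => x m j) →
      ∃ C κ : ℕ, ∀ n, ∃ e ≤ C * (n + 1) ^ κ * δ ^ n, GivenBy p F n e) ∧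
    ((∀ j, Nested 1 fun m => x m j) →
      Invertible p F ∧ ∃ C κ : ℕ, ∀ n, ∃ e ≤ C * (n + 1) ^ κ, GivenBy p F n e) ∧
    ((∀ j, LinNested fun m => x m j) →
      (∀ j, Nested 1 fun m => x m j) ∧
      ((∃ m i j, x m i * x 0 j ≠ x m j * x 0 i) → ∀ τ : k →+* ℂ, RationalCurvesDense τ p)) := by
  classical
  obtain ⟨d, hF⟩ := h.forms
  have h1 : ∀ δ : ℕ, 1 ≤ δ → (∀ j, Nested δ fun m => x m j) →
      ∃ C κ : ℕ, ∀ n, ∃ e ≤ C * (n + 1) ^ κ * δ ^ n, GivenBy p F n e := by
    intro δ hδ hn
    exact Pool.Agent.T6.H45.KN.slowN h.prime hF h.dominant h.ne_zero h.orbit h.dense hδ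
      fun j => nested_nest (hn j)
  refine ⟨h1, fun hn => ?_, fun hn => ⟨fun j => (hn j).nested le_rfl, fun hnp τ => ?_⟩⟩
  · obtain ⟨C, κ, hC⟩ := h1 1 le_rfl hn
    simp only [one_pow, mul_one] at hC
    obtain ⟨j0, hj0⟩ := Pool.Agent.TH8.OR.exists_X h.ne_zero h.dense
    exact ⟨Pool.Agent.T6.H45.KN.invertible_of_growthP h.prime hF h.dominant hj0 hC, C, κ, hC⟩
  · intro e G hG hGp
    have hnc : ¬ ∀ m i j, x m i * x 0 j = x m j * x 0 i := by
      intro hall
      obtain ⟨m, i, j, hne⟩ := hnp
      exact hne (hall m i j)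
    have h2 := Pool.Agent.T6.H45.KN.uniruled h.prime h.ne_zero h.dense hnc τ
      (fun j => lin_hol (hn j)) hG hGp
    by_contra hcon
    push Not at hcon
    apply h2
    intro c hc hnon u H hH _
    obtain ⟨A, rfl⟩ := Ideal.mem_span_singleton'.1 hH
    obtain ⟨i, j, u', v', hne⟩ := hnon
    rw [eval₂_mul, hcon c (fun H hH hHh u => hc u H hH hHh) ⟨i, j, u', v', hne⟩ u, mul_zero]

end Pool.Agent.Results.MP_0e7dfd_ag.NestedOrbits
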