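import Pool.Agent.T6.H19.KS.Dyn

/-!
# Points of small arithmetic degree are sparse

Quantitative sparsity of the `K`-rational points along which the heights grow more slowly than the
first dynamical degree predicts.
-/

set_option autoImplicit false

namespace Pool.Agent.Results.MP_0e7dfd_ag.SmallGrowthSparse

open Pool.Agent.H251R6.SDD Pool.Agent.T6.H19.KS Filter

variable {K k ι : Type} [Field K] [NumberField K] [Field k] [Algebra K k]

theorem eventually_small [Finite ι] {f : PSpace k ι → PSpace k ι} {x : PSpace k ι} {a μ : ℝ}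
    (ha : IsArithmeticDegree K f x a) (hμ : a < μ) :
    0 < a ∧ ∀ᶠ n : ℕ in atTop, max 1 (hK K (f^[n] x)) ≤ μ ^ n := by
  have h1 : ∀ n : ℕ, 1 ≤ (max 1 (hK K (f^[n] x))) ^ ((1 : ℝ) / n) := fun n =>
    Real.one_le_rpow (le_max_left _ _) (by positivity)
  have ha1 : 1 ≤ a := ge_of_tendsto' ha h1
  refine ⟨by linarith, ?_⟩
  filter_upwards [ha.eventually (gt_mem_nhds hμ), eventually_ge_atTop 1] with n hn hn1
  have hn0 : (0 : ℝ) < n := by exact_mod_cast hn1
  have hY : (0 : ℝ) ≤ max 1 (hK K (f^[n] x)) := le_trans zero_le_one (le_max_left _ _)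
  have h2 := pow_le_pow_left₀ (Real.rpow_nonneg hY _) hn.le n
  rwa [← Real.rpow_natCast (_ ^ _) n, ← Real.rpow_mul hY, one_div_mul_cancel hn0.ne',
    Real.rpow_one] at h2

theorem frequently_small [Finite ι] {f : PSpace k ι → PSpace k ι} {x : PSpace k ι} {a μ : ℝ}
    (ha : IsArithmeticDegree K f x a) (hμ : a < μ) {n : ℕ} (hn : 1 ≤ n) :
    ∃ᶠ m : ℕ in atTop, hK K (f^[n] (f^[m] x)) ≤ μ ^ n * max 1 (hK K (f^[m] x)) := by
  by_contra hcon
  rw [not_frequently] at hcon
  obtain ⟨ρ, haρ, hρμ⟩ := exists_between hμ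
  obtain ⟨ha0, hev⟩ := eventually_small ha haρ
  have hρ0 : 0 < ρ := ha0.trans haρ
  have hμ0 : 0 < μ := hρ0.trans hρμ
  obtain ⟨m₀, hm₀⟩ := eventually_atTop.1 (hcon.and hev)
  have hlow : ∀ j : ℕ, (μ ^ n) ^ j ≤ max 1 (hK K (f^[m₀ + j * n] x)) := by
    intro j
    induction j with
    | zero => simp
    | succ j ih =>
      have h1 := (hm₀ (m₀ + j * n) (Nat.le_add_right _ _)).1
      push Not at h1
      rw [← Function.iterate_add_apply] at h1
      have h2 : n + (m₀ + j * n) = m₀ + (j + 1) * n := by ring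
      rw [h2] at h1
      calc (μ ^ n) ^ (j + 1) = μ ^ n * (μ ^ n) ^ j := by ring
        _ ≤ μ ^ n * max 1 (hK K (f^[m₀ + j * n] x)) :=
            mul_le_mul_of_nonneg_left ih (by positivity)
        _ ≤ hK K (f^[m₀ + (j + 1) * n] x) := h1.le
        _ ≤ _ := le_max_right _ _
  have hup : ∀ j : ℕ, max 1 (hK K (f^[m₀ + j * n] x)) ≤ ρ ^ m₀ * (ρ ^ n) ^ j := by
    intro j
    refine ((hm₀ (m₀ + j * n) (Nat.le_add_right _ _)).2).trans (le_of_eq ?_)
    rw [pow_add, mul_comm j n, pow_mul]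
  have hq : 1 < μ ^ n / ρ ^ n := by
    rw [one_lt_div (by positivity)]
    exact pow_lt_pow_left₀ hρμ hρ0.le (by omega)
  obtain ⟨j, hj⟩ := pow_unbounded_of_one_lt (ρ ^ m₀) hq
  have h3 := (hlow j).trans (hup j)
  rw [div_pow, lt_div_iff₀ (by positivity)] at hj
  linarith

/-- **Theorem.** `K` is a number field, `k` an algebraically closed extension of `K`, `V` a
projective variety over `K`, `f` a surjective endomorphism of `V` defined over `K`, with first
dynamical degree `δ`.

(1) Let `1 ≤ μ < δ`, `ε > 0`, `C ≥ 1`. For all large `n` the set of the `x ∈ V(K)` with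
`h (f ^ n (x)) ≤ C μ ^ n max (1, h (x))` is covered at rate `ε`.

(2) If the arithmetic degree of `x ∈ V(K)` is less than `μ`, then
`h (f ^ n (x)) ≤ μ ^ n max (1, h (x))` for all large `n`, and for every `n ≥ 1` infinitely many
iterates `y = f ^ m (x)` satisfy `h (f ^ n (y)) ≤ μ ^ n max (1, h (y))`.

(3) If the heights along the orbits of `f` satisfy a linear recurrence up to errors
`≤ η max (1, h) + O_η(1)` for every `η > 0`, then the set of all `x ∈ V(K)` of arithmetic degree
less than `δ` is covered at every rate `ε > 0`. -/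
theorem result [IsAlgClosed k] [Fintype ι] {V : Set (PSpace k ι)}
    {f : PSpace k ι → PSpace k ι} {δ : ℝ} (hV : IsVarietyOver K V)
    (hf : IsSurjectiveEndomorphism K V f) (hδ : IsFirstDynamicalDegree V f δ) :
    (∀ μ ε C : ℝ, 1 ≤ μ → μ < δ → 0 < ε → 1 ≤ C → ∃ n₀ : ℕ, ∀ n ≥ n₀,
      CoveredAtRate K V {x | x ∈ ratPoints K V ∧
        hK K (f^[n] x) ≤ C * μ ^ n * max 1 (hK K x)} ε) ∧
    (∀ x ∈ ratPoints K V, ∀ a μ : ℝ, IsArithmeticDegree K f x a → a < μ →
      (∀ᶠ n : ℕ in atTop, hK K (f^[n] x) ≤ μ ^ n * max 1 (hK K x)) ∧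
      ∀ n : ℕ, 1 ≤ n → ∃ᶠ m : ℕ in atTop,
        hK K (f^[n] (f^[m] x)) ≤ μ ^ n * max 1 (hK K (f^[m] x))) ∧
    (HasApproxRec K V f → ∀ ε > 0,
      CoveredAtRate K V {x | x ∈ ratPoints K V ∧ ∃ a < δ, IsArithmeticDegree K f x a} ε) := by
  have hloc := locRep_of_endo hf
  refine ⟨fun μ ε C hμ1 hμ hε hC => level_covered hV hloc hδ hμ1 hμ hε hC,
    fun x hx a μ ha hμ => ⟨?_, fun n hn => frequently_small ha hμ hn⟩, ?_⟩
  · obtain ⟨ha0, hev⟩ := eventually_small ha hμ
    filter_upwards [hev] with n hn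
    have h1 : (0 : ℝ) ≤ μ ^ n := pow_nonneg (ha0.trans hμ).le n
    calc hK K (f^[n] x) ≤ max 1 (hK K (f^[n] x)) := le_max_right _ _
      _ ≤ μ ^ n := hn
      _ ≤ μ ^ n * max 1 (hK K x) := le_mul_of_one_le_right h1 (le_max_left _ _)
  · rintro ⟨d, c, E, hrec⟩ ε hε
    rcases le_or_gt δ 1 with hδ1 | hδ1
    · refine ⟨0, fun T hT => ⟨∅, by simp, by simp, ?_⟩⟩
      rintro x ⟨_, a, ha, hax⟩ _
      have h1 : ∀ n : ℕ, 1 ≤ (max 1 (hK K (f^[n] x))) ^ ((1 : ℝ) / n) := fun n =>
        Real.one_le_rpow (le_max_left _ _) (by positivity)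
      have h2 : 1 ≤ a := ge_of_tendsto' hax h1
      linarith
    · obtain ⟨himg, C0, hC0, hup⟩ := rat_image hV hloc
      obtain ⟨ρ, hρ1, hρδ, C, hC, hun⟩ := uniform_bound c hδ1 hC0 E
      obtain ⟨n₀, hn₀⟩ := level_covered (K := K) hV hloc hδ hρ1 hρδ hε hC
      refine (hn₀ n₀ le_rfl).mono ?_
      rintro x ⟨hx, a, ha, hax⟩
      refine ⟨hx, ?_⟩
      have horb : ∀ n, f^[n] x ∈ ratPoints K V := by
        intro n
        induction n with
        | zero => exact hx
        | succ n ih =>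
          rw [Function.iterate_succ_apply']
          exact himg _ ih
      refine hun (fun n => hK K (f^[n] x)) (fun n => hK_nonneg _) (fun n => ?_)
        (fun η hη n => ?_) ?_ n₀
      · have h1 := hup _ (horb n)
        rwa [← Function.iterate_succ_apply' (f := f)] at h1
      · have h1 := hrec _ (horb n) η hη
        have h2 : ∀ i : ℕ, f^[i] (f^[n] x) = f^[n + i] x := by
          intro i
          rw [← Function.iterate_add_apply, add_comm]
        simp only [h2] at h1
        exact h1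
      · obtain ⟨b, hab, hbδ⟩ := exists_between ha
        obtain ⟨ha0, hev⟩ := eventually_small hax hab
        obtain ⟨n₁, hn₁⟩ := eventually_atTop.1 hev
        have hb0 : 0 < b := ha0.trans hab
        -- a constant for the first terms
        have hbi : ∀ n, 0 < b ^ n := fun n => pow_pos hb0 n
        refine ⟨1 + ∑ i ∈ Finset.range n₁, hK K (f^[i] x) / b ^ i, b, hb0.le, hbδ,
          fun n => ?_⟩
        have hsum : 0 ≤ ∑ i ∈ Finset.range n₁, hK K (f^[i] x) / b ^ i :=
          Finset.sum_nonneg (fun i _ => div_nonneg (hK_nonneg _) (hbi i).le)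
        rcases Nat.lt_or_ge n n₁ with hn | hn
        · have h1 : hK K (f^[n] x) / b ^ n ≤ ∑ i ∈ Finset.range n₁, hK K (f^[i] x) / b ^ i :=
            Finset.single_le_sum (f := fun i => hK K (f^[i] x) / b ^ i)
              (fun i _ => div_nonneg (hK_nonneg _) (hbi i).le) (Finset.mem_range.2 hn)
          rw [div_le_iff₀ (hbi n)] at h1
          have := hbi n
          nlinarith
        · have h1 := (le_max_right 1 (hK K (f^[n] x))).trans (hn₁ n hn)
          have := hbi n
          nlinarith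

end Pool.Agent.Results.MP_0e7dfd_ag.SmallGrowthSparse
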